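import Pool.Agent.H78.Flip

open Pool.Agent.H78.Flip

theorem Pool.Agent.Results.MP_3933ef_co.Counter.result :
    ¬ ∀ (τ k : ℕ), 1 ≤ k → k + 1 ≤ τ → ∀ (V A : Type) [Fintype V] [DecidableEq V] [Fintype A]
      [DecidableEq A] (t h : A → V), (∀ a, t a ≠ h a) → EdgeConn t h (2 * k) → DicutsGe t h τ →
      Decomposes t h k (τ - k) :=
  main
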